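import Mathlib

/-!
# A homogeneous cone which is not a rank-one generated hyperbolicity cone

The cone is the dual Vinberg cone in `ℝ⁵`.
-/

namespace Pool.Agent.Results.MP_3ab8ef_ag.NotROG

open Polynomial

/-- The univariate polynomial `t ↦ p (u + t v)`. -/
noncomputable def alongLine {n : ℕ} (p : MvPolynomial (Fin n) ℝ) (u v : Fin n → ℝ) : ℝ[X] :=
  MvPolynomial.aeval (fun i => C (u i) + C (v i) * X) p

/-- All complex roots of the real polynomial `q` are real. -/
def OnlyRealRoots (q : ℝ[X]) : Prop :=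
  ∀ z : ℂ, Polynomial.aeval z q = 0 → z.im = 0

/-- `p` is homogeneous of degree `d`, `p e > 0`, and for every `x` the polynomial
`t ↦ p (x - t e)` has only real roots. -/
structure IsHyperbolic {n : ℕ} (d : ℕ) (p : MvPolynomial (Fin n) ℝ) (e : Fin n → ℝ) : Prop where
  homogeneous : p.IsHomogeneous d
  pos : 0 < MvPolynomial.eval e p
  real_rooted : ∀ x : Fin n → ℝ, OnlyRealRoots (alongLine p x (-e))

/-- The polynomial `t ↦ p (t e - x)`, whose roots are the eigenvalues of `x`. -/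
noncomputable def charPoly {n : ℕ} (p : MvPolynomial (Fin n) ℝ) (e x : Fin n → ℝ) : ℝ[X] :=
  alongLine p (-x) e

/-- The hyperbolicity cone: all eigenvalues are nonnegative. -/
def hypCone {n : ℕ} (p : MvPolynomial (Fin n) ℝ) (e : Fin n → ℝ) : Set (Fin n → ℝ) :=
  {x | ∀ t : ℝ, (charPoly p e x).IsRoot t → 0 ≤ t}

/-- The rank of `x`: the number of nonzero eigenvalues, counted with multiplicity. -/
noncomputable def hypRank {n : ℕ} (p : MvPolynomial (Fin n) ℝ) (e x : Fin n → ℝ) : ℕ :=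
  Multiset.card ((charPoly p e x).roots.filter (fun t => t ≠ 0))

/-- A convex cone (containing the origin). -/
structure IsConvexCone {n : ℕ} (K : Set (Fin n → ℝ)) : Prop where
  zero_mem : 0 ∈ K
  add_mem : ∀ x ∈ K, ∀ y ∈ K, x + y ∈ K
  smul_mem : ∀ c : ℝ, 0 ≤ c → ∀ x ∈ K, c • x ∈ K

/-- `K` is a homogeneous cone: a closed convex cone, pointed, full-dimensional, and such that
its group of linear automorphisms acts transitively on its interior. -/
structure IsHomogeneousCone {n : ℕ} (K : Set (Fin n → ℝ)) : Prop where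
  convexCone : IsConvexCone K
  closed : IsClosed K
  pointed : ∀ x ∈ K, -x ∈ K → x = 0
  fullDim : (interior K).Nonempty
  transitive : ∀ x ∈ interior K, ∀ y ∈ interior K,
    ∃ A : (Fin n → ℝ) ≃ₗ[ℝ] (Fin n → ℝ), A '' K = K ∧ A x = y

/-- `F` is a face of `K`. -/
structure IsFace {n : ℕ} (K F : Set (Fin n → ℝ)) : Prop where
  convexCone : IsConvexCone F
  subset : F ⊆ K
  face : ∀ x ∈ K, ∀ y ∈ K, x + y ∈ F → x ∈ F ∧ y ∈ F

/-- `F` is an extreme ray of `K`: a face of dimension one. -/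
def IsExtremeRay {n : ℕ} (K F : Set (Fin n → ℝ)) : Prop :=
  IsFace K F ∧ Module.finrank ℝ (Submodule.span ℝ F) = 1

/-- The ray generated by `x`. -/
def ray {n : ℕ} (x : Fin n → ℝ) : Set (Fin n → ℝ) :=
  {y | ∃ c : ℝ, 0 ≤ c ∧ y = c • x}

/-! ### Evaluation lemmas -/

lemma eval_alongLine {n : ℕ} (p : MvPolynomial (Fin n) ℝ) (u v : Fin n → ℝ) (t : ℝ) :
    (alongLine p u v).eval t = MvPolynomial.eval (fun i => u i + t * v i) p := by
  unfold alongLine
  have h : ∀ q : MvPolynomial (Fin n) ℝ,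
      (MvPolynomial.aeval (fun i => C (u i) + C (v i) * X) q : ℝ[X]).eval t
        = MvPolynomial.eval (fun i => u i + t * v i) q := by
    intro q
    induction q using MvPolynomial.induction_on with
    | C a => simp
    | add p q hp hq => simp [hp, hq]
    | mul_X p i hp =>
      rw [map_mul, Polynomial.eval_mul, hp, map_mul, MvPolynomial.aeval_X, MvPolynomial.eval_X]
      simp
      left
      ring
  exact h p

lemma eval_charPoly {n : ℕ} (p : MvPolynomial (Fin n) ℝ) (e x : Fin n → ℝ) (t : ℝ) :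
    (charPoly p e x).eval t = MvPolynomial.eval (t • e - x) p := by
  unfold charPoly
  rw [eval_alongLine]
  congr 2
  funext i
  simp
  ring

lemma eval_smul_hom {n d : ℕ} {p : MvPolynomial (Fin n) ℝ} (hp : p.IsHomogeneous d) (c : ℝ)
    (x : Fin n → ℝ) :
    MvPolynomial.eval (c • x) p = c ^ d * MvPolynomial.eval x p := by
  rw [MvPolynomial.eval_eq', MvPolynomial.eval_eq', Finset.mul_sum]
  refine Finset.sum_congr rfl fun m hm => ?_
  have hdeg : ∑ i, m i = d := by
    have := hp.degree_eq_sum_deg_support hm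
    rw [this]
    exact (Finset.sum_subset (Finset.subset_univ _) (by
      intro i _ hi
      simpa using hi)).symm
  simp only [Pi.smul_apply, smul_eq_mul, mul_pow, Finset.prod_mul_distrib, Finset.prod_pow_eq_pow_sum,
    hdeg]
  ring

lemma continuous_eval {n : ℕ} (p : MvPolynomial (Fin n) ℝ) :
    Continuous fun x : Fin n → ℝ => MvPolynomial.eval x p :=
  MvPolynomial.continuous_eval p

/-! ### The cone -/

/-- The dual Vinberg cone: the `(a, b, c, d, e)` such that the symmetric matrices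
`[[a, b], [b, e]]` and `[[c, d], [d, e]]` are both positive semidefinite. -/
def vcone : Set (Fin 5 → ℝ) :=
  {x | 0 ≤ x 0 ∧ 0 ≤ x 2 ∧ 0 ≤ x 4 ∧ x 1 ^ 2 ≤ x 0 * x 4 ∧ x 3 ^ 2 ≤ x 2 * x 4}

/-- The interior of the cone, described by strict inequalities. -/
def vint : Set (Fin 5 → ℝ) :=
  {x | 0 < x 0 ∧ 0 < x 2 ∧ 0 < x 4 ∧ x 1 ^ 2 < x 0 * x 4 ∧ x 3 ^ 2 < x 2 * x 4}

lemma psd_add {a b e a' b' e' : ℝ} (ha : 0 ≤ a) (he : 0 ≤ e) (h : b ^ 2 ≤ a * e)
    (ha' : 0 ≤ a') (he' : 0 ≤ e') (h' : b' ^ 2 ≤ a' * e') :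
    (b + b') ^ 2 ≤ (a + a') * (e + e') := by
  have h1 : 2 * (b * b') ≤ a * e' + a' * e := by
    have h2 : (2 * (b * b')) ^ 2 ≤ (a * e' + a' * e) ^ 2 := by
      have h3 : b ^ 2 * b' ^ 2 ≤ (a * e) * (a' * e') :=
        mul_le_mul h h' (sq_nonneg _) (mul_nonneg ha he)
      nlinarith [sq_nonneg (a * e' - a' * e)]
    exact abs_le_of_sq_le_sq' h2 (by positivity) |>.2
  nlinarith

lemma psd_nonneg {a b e : ℝ} (ha : 0 ≤ a) (he : 0 ≤ e) (h : b ^ 2 ≤ a * e) (u v : ℝ) :
    0 ≤ a * u ^ 2 + 2 * b * (u * v) + e * v ^ 2 := by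
  rcases eq_or_lt_of_le he with he0 | he0
  · have hb : b = 0 := by
      have : b ^ 2 ≤ 0 := by rw [← he0, mul_zero] at h; exact h
      exact pow_eq_zero_iff (two_ne_zero) |>.1 (le_antisymm this (sq_nonneg _))
    rw [← he0, hb]
    have := mul_nonneg ha (sq_nonneg u)
    linarith
  · have h1 : 0 ≤ e * (a * u ^ 2 + 2 * b * (u * v) + e * v ^ 2) := by
      nlinarith [sq_nonneg (b * u + e * v), mul_nonneg (sub_nonneg.2 h) (sq_nonneg u)]
    exact nonneg_of_mul_nonneg_right h1 he0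

lemma isConvexCone_vcone : IsConvexCone vcone where
  zero_mem := by simp [vcone]
  add_mem := by
    rintro x ⟨h0, h2, h4, h01, h23⟩ y ⟨g0, g2, g4, g01, g23⟩
    refine ⟨add_nonneg h0 g0, add_nonneg h2 g2, add_nonneg h4 g4, ?_, ?_⟩
    · exact psd_add h0 h4 h01 g0 g4 g01
    · exact psd_add h2 h4 h23 g2 g4 g23
  smul_mem := by
    rintro c hc x ⟨h0, h2, h4, h01, h23⟩
    refine ⟨mul_nonneg hc h0, mul_nonneg hc h2, mul_nonneg hc h4, ?_, ?_⟩
    · simp only [Pi.smul_apply, smul_eq_mul]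
      nlinarith [mul_le_mul_of_nonneg_left h01 (mul_nonneg hc hc)]
    · simp only [Pi.smul_apply, smul_eq_mul]
      nlinarith [mul_le_mul_of_nonneg_left h23 (mul_nonneg hc hc)]

lemma isClosed_vcone : IsClosed vcone := by
  have e : vcone = {x : Fin 5 → ℝ | 0 ≤ x 0} ∩ {x | 0 ≤ x 2} ∩ {x | 0 ≤ x 4}
      ∩ {x | x 1 ^ 2 ≤ x 0 * x 4} ∩ {x | x 3 ^ 2 ≤ x 2 * x 4} := by
    ext x
    simp only [vcone, Set.mem_ofPred_eq, Set.mem_inter_iff]
    tauto
  rw [e]
  refine ((((?_ : IsClosed _).inter ?_).inter ?_).inter ?_).inter ?_ <;>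
  exact isClosed_le (by fun_prop) (by fun_prop)

lemma isOpen_vint : IsOpen vint := by
  have e : vint = {x : Fin 5 → ℝ | 0 < x 0} ∩ {x | 0 < x 2} ∩ {x | 0 < x 4}
      ∩ {x | x 1 ^ 2 < x 0 * x 4} ∩ {x | x 3 ^ 2 < x 2 * x 4} := by
    ext x
    simp only [vint, Set.mem_ofPred_eq, Set.mem_inter_iff]
    tauto
  rw [e]
  refine ((((?_ : IsOpen _).inter ?_).inter ?_).inter ?_).inter ?_ <;>
  exact isOpen_lt (by fun_prop) (by fun_prop)

lemma vint_subset : vint ⊆ vcone := by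
  rintro x ⟨h0, h2, h4, h01, h23⟩
  exact ⟨h0.le, h2.le, h4.le, h01.le, h23.le⟩

lemma interior_vcone : interior vcone = vint := by
  apply Set.Subset.antisymm
  · intro x hx
    have hx' : ∀ᶠ y in nhds x, y ∈ vcone := mem_interior_iff_mem_nhds.1 hx
    have hc : Continuous fun s : ℝ => x - s • (![1, 0, 1, 0, 1] : Fin 5 → ℝ) := by fun_prop
    have hc0 : Filter.Tendsto (fun s : ℝ => x - s • (![1, 0, 1, 0, 1] : Fin 5 → ℝ)) (nhds 0)
        (nhds x) := by
      have := hc.tendsto 0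
      simpa using this
    have h1 := hc0.eventually hx'
    obtain ⟨ε, hε, hball⟩ := Metric.eventually_nhds_iff.1 h1
    have h2 := @hball (ε / 2) (by rw [Real.dist_eq, sub_zero, abs_of_pos (by linarith)]; linarith)
    obtain ⟨h0, h2, h4, h01, h23⟩ := h2
    simp at h0 h2 h4 h01 h23
    refine ⟨by linarith, by linarith, by linarith, ?_, ?_⟩ <;> nlinarith
  · exact interior_maximal vint_subset isOpen_vint

lemma vcone_pointed : ∀ x ∈ vcone, -x ∈ vcone → x = 0 := by
  rintro x ⟨h0, h2, h4, h01, h23⟩ ⟨g0, g2, g4, g01, g23⟩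
  simp only [Pi.neg_apply] at g0 g2 g4 g01 g23
  have e0 : x 0 = 0 := by linarith
  have e2 : x 2 = 0 := by linarith
  have e4 : x 4 = 0 := by linarith
  have e1 : x 1 = 0 := by
    rw [e0, zero_mul] at h01
    exact pow_eq_zero_iff (two_ne_zero) |>.1 (le_antisymm h01 (sq_nonneg _))
  have e3 : x 3 = 0 := by
    rw [e2, zero_mul] at h23
    exact pow_eq_zero_iff (two_ne_zero) |>.1 (le_antisymm h23 (sq_nonneg _))
  funext i
  fin_cases i <;> simp [e0, e1, e2, e3, e4]

/-- Simultaneous congruence by `[[α, β], [0, ε]]` and `[[γ, δ], [0, ε]]`. -/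
def actMap (α β γ δ ε : ℝ) : (Fin 5 → ℝ) →ₗ[ℝ] (Fin 5 → ℝ) where
  toFun x := ![α ^ 2 * x 0 + 2 * α * β * x 1 + β ^ 2 * x 4, α * ε * x 1 + β * ε * x 4,
    γ ^ 2 * x 2 + 2 * γ * δ * x 3 + δ ^ 2 * x 4, γ * ε * x 3 + δ * ε * x 4, ε ^ 2 * x 4]
  map_add' x y := by
    funext i
    fin_cases i <;> simp <;> ring
  map_smul' c x := by
    funext i
    fin_cases i <;> simp <;> ring

lemma actMap_mem (α β γ δ ε : ℝ) {x : Fin 5 → ℝ} (hx : x ∈ vcone) :
    actMap α β γ δ ε x ∈ vcone := by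
  obtain ⟨h0, h2, h4, h01, h23⟩ := hx
  refine ⟨?_, ?_, ?_, ?_, ?_⟩
  · have := psd_nonneg h0 h4 h01 α β
    simp [actMap]
    nlinarith
  · have := psd_nonneg h2 h4 h23 γ δ
    simp [actMap]
    nlinarith
  · simp [actMap]
    positivity
  · simp [actMap]
    nlinarith [mul_nonneg (mul_nonneg (sq_nonneg α) (sq_nonneg ε)) (sub_nonneg.2 h01)]
  · simp [actMap]
    nlinarith [mul_nonneg (mul_nonneg (sq_nonneg γ) (sq_nonneg ε)) (sub_nonneg.2 h23)]

lemma actMap_inv {α β γ δ ε : ℝ} (hα : α ≠ 0) (hγ : γ ≠ 0) (hε : ε ≠ 0) (x : Fin 5 → ℝ) :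
    actMap (α⁻¹) (-(β / (α * ε))) (γ⁻¹) (-(δ / (γ * ε))) (ε⁻¹) (actMap α β γ δ ε x) = x := by
  funext i
  fin_cases i <;> simp [actMap] <;> field_simp <;> ring

lemma actMap_inv' {α β γ δ ε : ℝ} (hα : α ≠ 0) (hγ : γ ≠ 0) (hε : ε ≠ 0) (x : Fin 5 → ℝ) :
    actMap α β γ δ ε (actMap (α⁻¹) (-(β / (α * ε))) (γ⁻¹) (-(δ / (γ * ε))) (ε⁻¹) x) = x := by
  funext i
  fin_cases i <;> simp [actMap] <;> field_simp <;> ring

/-- `actMap` as a linear automorphism. -/
noncomputable def actEquiv {α β γ δ ε : ℝ} (hα : α ≠ 0) (hγ : γ ≠ 0) (hε : ε ≠ 0) :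
    (Fin 5 → ℝ) ≃ₗ[ℝ] (Fin 5 → ℝ) :=
  LinearEquiv.ofLinearMap (actMap α β γ δ ε)
    (actMap (α⁻¹) (-(β / (α * ε))) (γ⁻¹) (-(δ / (γ * ε))) (ε⁻¹))
    (LinearMap.ext fun x => actMap_inv' hα hγ hε x)
    (LinearMap.ext fun x => actMap_inv hα hγ hε x)

lemma actEquiv_image {α β γ δ ε : ℝ} (hα : α ≠ 0) (hγ : γ ≠ 0) (hε : ε ≠ 0) :
    (actEquiv (β := β) (δ := δ) hα hγ hε) '' vcone = vcone := by
  apply Set.Subset.antisymm
  · rintro _ ⟨x, hx, rfl⟩
    exact actMap_mem α β γ δ ε hx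
  · intro x hx
    exact ⟨_, actMap_mem _ _ _ _ _ hx, actMap_inv' hα hγ hε x⟩

lemma exists_act {y : Fin 5 → ℝ} (hy : y ∈ vint) :
    ∃ A : (Fin 5 → ℝ) ≃ₗ[ℝ] (Fin 5 → ℝ), A '' vcone = vcone ∧ A ![1, 0, 1, 0, 1] = y := by
  obtain ⟨h0, h2, h4, h01, h23⟩ := hy
  have hε : 0 < √(y 4) := Real.sqrt_pos.2 h4
  have hα' : 0 < y 0 - y 1 ^ 2 / y 4 := by
    rw [sub_pos, div_lt_iff₀ h4]; exact h01
  have hγ' : 0 < y 2 - y 3 ^ 2 / y 4 := by
    rw [sub_pos, div_lt_iff₀ h4]; exact h23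
  have hα : 0 < √(y 0 - y 1 ^ 2 / y 4) := Real.sqrt_pos.2 hα'
  have hγ : 0 < √(y 2 - y 3 ^ 2 / y 4) := Real.sqrt_pos.2 hγ'
  have s1 := Real.sq_sqrt h4.le
  have s2 := Real.sq_sqrt hα'.le
  have s3 := Real.sq_sqrt hγ'.le
  refine ⟨actEquiv (β := y 1 / √(y 4)) (δ := y 3 / √(y 4)) hα.ne' hγ.ne' hε.ne',
    actEquiv_image _ _ _, ?_⟩
  change actMap _ _ _ _ _ _ = _
  funext i
  fin_cases i
  · simp [actMap, s1, s2, div_pow]
  · simp [actMap]
    field_simp
  · simp [actMap, s1, s3, div_pow]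
  · simp [actMap]
    field_simp
  · simp [actMap, s1]

lemma isHomogeneousCone_vcone : IsHomogeneousCone vcone where
  convexCone := isConvexCone_vcone
  closed := isClosed_vcone
  pointed := vcone_pointed
  fullDim := by
    rw [interior_vcone]
    exact ⟨![1, 0, 1, 0, 1], by simp [vint]⟩
  transitive := by
    intro x hx y hy
    rw [interior_vcone] at hx hy
    obtain ⟨A, hA, hAx⟩ := exists_act hx
    obtain ⟨B, hB, hBy⟩ := exists_act hy
    refine ⟨A.symm.trans B, ?_, ?_⟩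
    · have h1 : A.symm '' vcone = vcone := by
        conv_lhs => rw [← hA]
        rw [← Set.image_comp]
        simp
      have h2 : (A.symm.trans B) '' vcone = B '' (A.symm '' vcone) := by
        rw [← Set.image_comp]
        rfl
      rw [h2, h1, hB]
    · rw [LinearEquiv.trans_apply, ← hAx, LinearEquiv.symm_apply_apply, hBy]

open Pointwise in
lemma vcone_add_vint {x y : Fin 5 → ℝ} (hx : x ∈ vcone) (hy : y ∈ vint) : x + y ∈ vint := by
  have h : interior vcone + vcone ⊆ interior (vcone + vcone) := subset_interior_add_left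
  have h' : vcone + vcone ⊆ vcone := by
    rintro _ ⟨a, ha, b, hb, rfl⟩
    exact isConvexCone_vcone.add_mem a ha b hb
  rw [← interior_vcone] at hy ⊢
  rw [add_comm]
  exact interior_mono h' (h (Set.add_mem_add hy hx))

/-! ### Consequences of `K = Λ₊(p, e)` -/

section hyp

variable {d : ℕ} {p : MvPolynomial (Fin 5) ℝ} {e : Fin 5 → ℝ}

/-- The real roots of `t ↦ p (t e - x)` are bounded. -/
lemma roots_bounded {n : ℕ} {p : MvPolynomial (Fin n) ℝ} {e : Fin n → ℝ}
    (h : IsHyperbolic d p e) (x : Fin n → ℝ) :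
    ∃ M : ℝ, 0 < M ∧ ∀ t : ℝ, MvPolynomial.eval (t • e - x) p = 0 → |t| ≤ M := by
  have hc : Continuous fun s : ℝ => MvPolynomial.eval (e - s • x) p :=
    (continuous_eval p).comp (by fun_prop)
  have h0 : 0 < MvPolynomial.eval (e - (0 : ℝ) • x) p := by simpa using h.pos
  have h1 : ∀ᶠ s in nhds (0 : ℝ), 0 < MvPolynomial.eval (e - s • x) p :=
    hc.continuousAt.eventually (lt_mem_nhds h0)
  obtain ⟨ε, hε, hball⟩ := Metric.eventually_nhds_iff.1 h1
  refine ⟨ε⁻¹, inv_pos.2 hε, fun t ht => ?_⟩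
  by_contra hcon
  push Not at hcon
  have htpos : 0 < |t| := lt_trans (inv_pos.2 hε) hcon
  have ht0 : t ≠ 0 := abs_pos.1 htpos
  have hs : 0 < MvPolynomial.eval (e - t⁻¹ • x) p := by
    apply hball
    rw [Real.dist_eq, sub_zero, abs_inv]
    exact inv_lt_of_inv_lt₀ hε hcon
  have e1 : t • e - x = t • (e - t⁻¹ • x) := by
    rw [smul_sub, smul_smul, mul_inv_cancel₀ ht0, one_smul]
  rw [e1, eval_smul_hom h.homogeneous] at ht
  exact (mul_ne_zero (pow_ne_zero _ ht0) hs.ne') ht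

lemma mem_hypCone {n : ℕ} {p : MvPolynomial (Fin n) ℝ} {e : Fin n → ℝ} {x : Fin n → ℝ} :
    x ∈ hypCone p e ↔ ∀ t : ℝ, MvPolynomial.eval (t • e - x) p = 0 → 0 ≤ t := by
  simp only [hypCone, Set.mem_ofPred_eq, Polynomial.IsRoot.def, eval_charPoly]

lemma exists_add_mem {n : ℕ} {p : MvPolynomial (Fin n) ℝ} {e : Fin n → ℝ}
    (h : IsHyperbolic d p e) (x : Fin n → ℝ) : ∃ t : ℝ, x + t • e ∈ hypCone p e := by
  obtain ⟨M, hM, hroots⟩ := roots_bounded h x
  refine ⟨M, mem_hypCone.2 fun t ht => ?_⟩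
  have e1 : t • e - (x + M • e) = (t - M) • e - x := by
    rw [sub_smul]; abel
  rw [e1] at ht
  have := (abs_le.1 (hroots _ ht)).1
  linarith

lemma self_mem_hypCone {n : ℕ} {p : MvPolynomial (Fin n) ℝ} {e : Fin n → ℝ}
    (h : IsHyperbolic d p e) : e ∈ hypCone p e := by
  refine mem_hypCone.2 fun t ht => ?_
  have e1 : t • e - e = (t - 1) • e := by rw [sub_smul, one_smul]
  rw [e1, eval_smul_hom h.homogeneous] at ht
  have h2 := (mul_eq_zero.1 ht).resolve_right h.pos.ne'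
  have h3 : t - 1 = 0 := eq_zero_of_pow_eq_zero h2
  linarith

lemma dir_mem_vint (h : IsHyperbolic d p e) (hK : vcone = hypCone p e) : e ∈ vint := by
  have he : e ∈ vcone := by rw [hK]; exact self_mem_hypCone h
  obtain ⟨t, ht⟩ := exists_add_mem h (![-1, 0, -1, 0, -1] : Fin 5 → ℝ)
  rw [← hK] at ht
  obtain ⟨h0, h2, h4, h01, h23⟩ := he
  obtain ⟨g0, g2, g4, g01, g23⟩ := ht
  simp at g0 g2 g4 g01 g23
  have e4 : 0 < e 4 := by
    rcases eq_or_lt_of_le h4 with h | h
    · rw [← h] at g4; linarith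
    · exact h
  have e0 : 0 < e 0 := by
    rcases eq_or_lt_of_le h0 with h | h
    · rw [← h] at g0; linarith
    · exact h
  have e2 : 0 < e 2 := by
    rcases eq_or_lt_of_le h2 with h | h
    · rw [← h] at g2; linarith
    · exact h
  refine ⟨e0, e2, e4, ?_, ?_⟩
  · rcases eq_or_lt_of_le h01 with h | h
    · exfalso
      have := psd_nonneg (a := -1 + t * e 0) (b := t * e 1) (e := -1 + t * e 4) (by linarith)
        (by linarith) (by linarith) (e 4) (-e 1)
      nlinarith [sq_nonneg (e 1), mul_pos e4 e4]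
    · exact h
  · rcases eq_or_lt_of_le h23 with h | h
    · exfalso
      have := psd_nonneg (a := -1 + t * e 2) (b := t * e 3) (e := -1 + t * e 4) (by linarith)
        (by linarith) (by linarith) (e 4) (-e 3)
      nlinarith [sq_nonneg (e 3), mul_pos e4 e4]
    · exact h

/-- `p` vanishes at every point of `K` which is not in the interior of `K`. -/
lemma eval_boundary (h : IsHyperbolic d p e) (hK : vcone = hypCone p e) {z : Fin 5 → ℝ}
    (hz : z ∈ vcone) (hz' : z ∉ vint) : MvPolynomial.eval z p = 0 := by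
  have hev := dir_mem_vint h hK
  have key : ∀ ε : ℝ, 0 < ε → ∃ t : ℝ, 0 ≤ t ∧ t < ε ∧ MvPolynomial.eval (t • e - z) p = 0 := by
    intro ε hε
    have hn : z - ε • e ∉ vcone := by
      intro hcon
      apply hz'
      have h1 : ε • e ∈ vint := by
        rw [← interior_vcone] at hev ⊢
        obtain ⟨a, b, c, d, f⟩ := (interior_vcone ▸ hev : e ∈ vint)
        rw [interior_vcone]
        refine ⟨mul_pos hε a, mul_pos hε b, mul_pos hε c, ?_, ?_⟩
        · simp only [Pi.smul_apply, smul_eq_mul]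
          nlinarith [mul_lt_mul_of_pos_left d (mul_pos hε hε)]
        · simp only [Pi.smul_apply, smul_eq_mul]
          nlinarith [mul_lt_mul_of_pos_left f (mul_pos hε hε)]
      have := vcone_add_vint hcon h1
      rwa [sub_add_cancel] at this
    rw [hK, mem_hypCone] at hn
    push Not at hn
    obtain ⟨t, ht, ht0⟩ := hn
    have e1 : t • e - (z - ε • e) = (t + ε) • e - z := by
      rw [add_smul]; abel
    rw [e1] at ht
    rw [hK, mem_hypCone] at hz
    exact ⟨t + ε, hz _ ht, by linarith, ht⟩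
  have hc : Continuous fun s : ℝ => MvPolynomial.eval (s • e - z) p :=
    (continuous_eval p).comp (by fun_prop)
  have hcl : IsClosed {s : ℝ | MvPolynomial.eval (s • e - z) p = 0} :=
    isClosed_eq hc continuous_const
  have h0 : (0 : ℝ) ∈ {s : ℝ | MvPolynomial.eval (s • e - z) p = 0} := by
    rw [← hcl.closure_eq, Metric.mem_closure_iff]
    intro ε hε
    obtain ⟨t, ht0, ht1, ht⟩ := key ε hε
    refine ⟨t, ht, ?_⟩
    rw [dist_comm, Real.dist_eq, sub_zero, abs_of_nonneg ht0]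
    exact ht1
  have h1 : MvPolynomial.eval ((-1 : ℝ) • z) p = 0 := by
    have : (0 : ℝ) • e - z = (-1 : ℝ) • z := by simp
    rw [← this]
    exact h0
  rw [eval_smul_hom h.homogeneous] at h1
  exact (mul_eq_zero.1 h1).resolve_left (pow_ne_zero _ (by norm_num))

/-- If `p` vanishes at `z + r u` for all large `r`, then `p z = 0`. -/
lemma eval_zero_of_large {n : ℕ} {p : MvPolynomial (Fin n) ℝ} {z u : Fin n → ℝ} {R : ℝ}
    (h : ∀ r : ℝ, R ≤ r → MvPolynomial.eval (z + r • u) p = 0) : MvPolynomial.eval z p = 0 := by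
  have h1 : alongLine p z u = 0 := by
    apply Polynomial.eq_zero_of_infinite_isRoot
    refine Set.Infinite.mono ?_ (Set.Ici_infinite R)
    intro r hr
    change (alongLine p z u).eval r = 0
    rw [eval_alongLine]
    exact h r hr
  have h2 : (alongLine p z u).eval 0 = 0 := by rw [h1]; simp
  rw [eval_alongLine] at h2
  simpa using h2

/-- `p` vanishes on the part of the quadric `a e = b ^ 2` with `e > 0`. -/
lemma eval_quadric_one (h : IsHyperbolic d p e) (hK : vcone = hypCone p e) {z : Fin 5 → ℝ}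
    (h4 : 0 < z 4) (h01 : z 1 ^ 2 = z 0 * z 4) : MvPolynomial.eval z p = 0 := by
  apply eval_zero_of_large (u := ![0, 0, 1, 0, 0]) (R := z 3 ^ 2 / z 4 - z 2)
  intro r hr
  apply eval_boundary h hK
  · have h0 : 0 ≤ z 0 := by
      by_contra hcon
      push Not at hcon
      nlinarith [sq_nonneg (z 1), mul_pos (neg_pos.2 hcon) h4]
    have hr' : z 3 ^ 2 / z 4 ≤ z 2 + r := by linarith
    have h3 : 0 ≤ z 3 ^ 2 / z 4 := by positivity
    refine ⟨by simpa using h0, by simpa using h3.trans hr', by simpa using h4.le,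
      by simpa using h01.le, ?_⟩
    simpa using (div_le_iff₀ h4).1 hr'
  · rintro ⟨_, _, _, g, _⟩
    simp at g
    linarith

/-- `p` vanishes on the part of the quadric `c e = d ^ 2` with `e > 0`. -/
lemma eval_quadric_two (h : IsHyperbolic d p e) (hK : vcone = hypCone p e) {z : Fin 5 → ℝ}
    (h4 : 0 < z 4) (h23 : z 3 ^ 2 = z 2 * z 4) : MvPolynomial.eval z p = 0 := by
  apply eval_zero_of_large (u := ![1, 0, 0, 0, 0]) (R := z 1 ^ 2 / z 4 - z 0)
  intro r hr
  apply eval_boundary h hK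
  · have h0 : 0 ≤ z 2 := by
      by_contra hcon
      push Not at hcon
      nlinarith [sq_nonneg (z 3), mul_pos (neg_pos.2 hcon) h4]
    have hr' : z 1 ^ 2 / z 4 ≤ z 0 + r := by linarith
    have h3 : 0 ≤ z 1 ^ 2 / z 4 := by positivity
    refine ⟨by simpa using h3.trans hr', by simpa using h0, by simpa using h4.le, ?_,
      by simpa using h23.le⟩
    simpa using (div_le_iff₀ h4).1 hr'
  · rintro ⟨_, _, _, _, g⟩
    simp at g
    linarith

end hyp

/-! ### Extreme rays -/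

/-- The generators `(b², b, d², d, 1)` of extreme rays. -/
def gen (b d : ℝ) : Fin 5 → ℝ := ![b ^ 2, b, d ^ 2, d, 1]

lemma gen_ne_zero (b d : ℝ) : gen b d ≠ 0 := by
  intro h
  have := congrFun h 4
  simp [gen] at this

lemma gen_mem (b d : ℝ) : gen b d ∈ vcone := by
  refine ⟨?_, ?_, ?_, ?_, ?_⟩ <;> simp [gen] <;> positivity

lemma isExtremeRay_gen (b d : ℝ) : IsExtremeRay vcone (ray (gen b d)) := by
  constructor
  · refine ⟨⟨⟨0, le_rfl, by simp⟩, ?_, ?_⟩, ?_, ?_⟩
    · rintro _ ⟨c, hc, rfl⟩ _ ⟨c', hc', rfl⟩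
      exact ⟨c + c', add_nonneg hc hc', by rw [add_smul]⟩
    · rintro c hc _ ⟨c', hc', rfl⟩
      exact ⟨c * c', mul_nonneg hc hc', by rw [smul_smul]⟩
    · rintro _ ⟨c, hc, rfl⟩
      exact isConvexCone_vcone.smul_mem c hc _ (gen_mem b d)
    · rintro x ⟨h0, h2, h4, h01, h23⟩ y ⟨g0, g2, g4, g01, g23⟩ ⟨c, hc, hxy⟩
      have k0 : x 0 + y 0 = c * b ^ 2 := by simpa [gen] using congrFun hxy 0
      have k1 : x 1 + y 1 = c * b := by simpa [gen] using congrFun hxy 1
      have k2 : x 2 + y 2 = c * d ^ 2 := by simpa [gen] using congrFun hxy 2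
      have k3 : x 3 + y 3 = c * d := by simpa [gen] using congrFun hxy 3
      have k4 : x 4 + y 4 = c := by simpa [gen] using congrFun hxy 4
      have a1 := psd_nonneg h0 h4 h01 1 (-b)
      have a2 := psd_nonneg g0 g4 g01 1 (-b)
      have b1 := psd_nonneg h2 h4 h23 1 (-d)
      have b2 := psd_nonneg g2 g4 g23 1 (-d)
      have s1 : (x 0 * 1 ^ 2 + 2 * x 1 * (1 * -b) + x 4 * (-b) ^ 2)
          + (y 0 * 1 ^ 2 + 2 * y 1 * (1 * -b) + y 4 * (-b) ^ 2) = 0 := by
        have : (x 0 * 1 ^ 2 + 2 * x 1 * (1 * -b) + x 4 * (-b) ^ 2)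
          + (y 0 * 1 ^ 2 + 2 * y 1 * (1 * -b) + y 4 * (-b) ^ 2)
          = (x 0 + y 0) - 2 * b * (x 1 + y 1) + b ^ 2 * (x 4 + y 4) := by ring
        rw [this, k0, k1, k4]; ring
      have s2 : (x 2 * 1 ^ 2 + 2 * x 3 * (1 * -d) + x 4 * (-d) ^ 2)
          + (y 2 * 1 ^ 2 + 2 * y 3 * (1 * -d) + y 4 * (-d) ^ 2) = 0 := by
        have : (x 2 * 1 ^ 2 + 2 * x 3 * (1 * -d) + x 4 * (-d) ^ 2)
          + (y 2 * 1 ^ 2 + 2 * y 3 * (1 * -d) + y 4 * (-d) ^ 2)
          = (x 2 + y 2) - 2 * d * (x 3 + y 3) + d ^ 2 * (x 4 + y 4) := by ring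
        rw [this, k2, k3, k4]; ring
      have main : ∀ a b' e β : ℝ, b' ^ 2 ≤ a * e →
          a * 1 ^ 2 + 2 * b' * (1 * -β) + e * (-β) ^ 2 = 0 → b' = e * β ∧ a = e * β ^ 2 := by
        intro a b' e β h1 h2
        have ha : a = 2 * b' * β - e * β ^ 2 := by linarith
        rw [ha] at h1
        have h3 : (b' - e * β) ^ 2 ≤ 0 := by linarith
        have h4 : b' - e * β = 0 :=
          pow_eq_zero_iff (two_ne_zero) |>.1 (le_antisymm h3 (sq_nonneg _))
        have h5 : b' = e * β := by linarith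
        refine ⟨h5, ?_⟩
        rw [ha, h5]
        ring
      have x01 := main (x 0) (x 1) (x 4) b h01 (by linarith)
      have y01 := main (y 0) (y 1) (y 4) b g01 (by linarith)
      have x23 := main (x 2) (x 3) (x 4) d h23 (by linarith)
      have y23 := main (y 2) (y 3) (y 4) d g23 (by linarith)
      constructor
      · refine ⟨x 4, h4, ?_⟩
        funext i
        fin_cases i <;> simp [gen, x01.1, x01.2, x23.1, x23.2]
      · refine ⟨y 4, g4, ?_⟩
        funext i
        fin_cases i <;> simp [gen, y01.1, y01.2, y23.1, y23.2]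
  · have : Submodule.span ℝ (ray (gen b d)) = Submodule.span ℝ {gen b d} := by
      apply le_antisymm
      · rw [Submodule.span_le]
        rintro _ ⟨c, _, rfl⟩
        exact Submodule.smul_mem _ _ (Submodule.mem_span_singleton_self _)
      · rw [Submodule.span_le, Set.singleton_subset_iff]
        exact Submodule.subset_span ⟨1, zero_le_one, by rw [one_smul]⟩
    rw [this]
    exact finrank_span_singleton (gen_ne_zero b d)

/-- Two distinct nonzero eigenvalues give rank at least two. -/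
lemma two_le_hypRank {n d : ℕ} {p : MvPolynomial (Fin n) ℝ} {e x : Fin n → ℝ}
    (h : IsHyperbolic d p e) {t₁ t₂ : ℝ} (h1 : t₁ ≠ 0) (h2 : t₂ ≠ 0) (h12 : t₁ ≠ t₂)
    (r1 : MvPolynomial.eval (t₁ • e - x) p = 0) (r2 : MvPolynomial.eval (t₂ • e - x) p = 0) :
    2 ≤ hypRank p e x := by
  have hne : charPoly p e x ≠ 0 := by
    intro hcon
    obtain ⟨M, hM, hroots⟩ := roots_bounded h x
    have h3 : MvPolynomial.eval ((M + 1) • e - x) p = 0 := by
      rw [← eval_charPoly, hcon]; simp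
    have := hroots _ h3
    rw [abs_of_pos (by linarith)] at this
    linarith
  have m1 : t₁ ∈ (charPoly p e x).roots.filter (fun t => t ≠ 0) := by
    rw [Multiset.mem_filter, Polynomial.mem_roots hne]
    refine ⟨?_, h1⟩
    change (charPoly p e x).eval t₁ = 0
    rw [eval_charPoly]; exact r1
  have m2 : t₂ ∈ (charPoly p e x).roots.filter (fun t => t ≠ 0) := by
    rw [Multiset.mem_filter, Polynomial.mem_roots hne]
    refine ⟨?_, h2⟩
    change (charPoly p e x).eval t₂ = 0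
    rw [eval_charPoly]; exact r2
  unfold hypRank
  refine le_trans ?_ (Multiset.toFinset_card_le _)
  have : 1 < ((charPoly p e x).roots.filter (fun t => t ≠ 0)).toFinset.card :=
    Finset.one_lt_card.2 ⟨t₁, Multiset.mem_toFinset.2 m1, t₂, Multiset.mem_toFinset.2 m2, h12⟩
  exact this

/-- For every `(p, e)` with `Λ₊(p, e) = K`, some `x₀ = (b², b, d², d, 1)` has two distinct
nonzero eigenvalues. -/
lemma exists_two_roots {d : ℕ} {p : MvPolynomial (Fin 5) ℝ} {e : Fin 5 → ℝ}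
    (h : IsHyperbolic d p e) (hK : vcone = hypCone p e) :
    ∃ b δ t₁ t₂ : ℝ, t₁ ≠ 0 ∧ t₂ ≠ 0 ∧ t₁ ≠ t₂ ∧
      MvPolynomial.eval (t₁ • e - gen b δ) p = 0 ∧ MvPolynomial.eval (t₂ • e - gen b δ) p = 0 := by
  obtain ⟨h0, h2, h4, h01, h23⟩ := dir_mem_vint h hK
  have f1 : 0 < e 0 * e 4 - e 1 ^ 2 := by linarith
  have f2 : 0 < 2 * (e 2 * e 4 - e 3 ^ 2) := by linarith
  have s1 := Real.sq_sqrt f1.le
  have s2 := Real.sq_sqrt f2.le
  set r₁ := √(e 0 * e 4 - e 1 ^ 2) with hr1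
  set r₂ := √(2 * (e 2 * e 4 - e 3 ^ 2)) with hr2
  refine ⟨(e 1 + r₁) / e 4, (e 3 + r₂) / e 4, 2 / e 4, 3 / e 4, by positivity, by positivity, ?_,
    ?_, ?_⟩
  · intro hcon
    rw [div_left_inj' h4.ne'] at hcon
    norm_num at hcon
  · apply eval_quadric_one h hK
    · simp [gen]
      rw [div_mul_cancel₀ _ h4.ne']
      norm_num
    · simp [gen]
      field_simp
      ring_nf
      nlinarith
  · apply eval_quadric_two h hK
    · simp [gen]
      rw [div_mul_cancel₀ _ h4.ne']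
      norm_num
    · simp [gen]
      field_simp
      ring_nf
      nlinarith

/-! ### Sanity check (not used in the statement): `vcone` is a hyperbolicity cone -/

/-- The polynomial `(a e - b²) (c e - d²)`. -/
noncomputable def vpoly : MvPolynomial (Fin 5) ℝ :=
  (MvPolynomial.X 0 * MvPolynomial.X 4 - MvPolynomial.X 1 ^ 2) *
    (MvPolynomial.X 2 * MvPolynomial.X 4 - MvPolynomial.X 3 ^ 2)

lemma isHyperbolic_vpoly : IsHyperbolic 4 vpoly ![1, 0, 1, 0, 1] where
  homogeneous := by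
    have hX : ∀ i : Fin 5, (MvPolynomial.X i : MvPolynomial (Fin 5) ℝ).IsHomogeneous 1 :=
      fun i => MvPolynomial.isHomogeneous_X _ i
    exact (((hX 0).mul (hX 4)).sub ((hX 1).pow 2)).mul (((hX 2).mul (hX 4)).sub ((hX 3).pow 2))
  pos := by simp [vpoly]
  real_rooted := by
    intro x z hz
    have key : ∀ a b c : ℝ, (a - z) * (c - z) - (b : ℂ) ^ 2 = 0 → z.im = 0 := by
      intro a b c h
      have hre := congrArg Complex.re h
      have him := congrArg Complex.im h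
      simp [pow_two] at hre him
      by_contra hne
      have h1 : a + c = 2 * z.re := by
        have : z.im * (a + c - 2 * z.re) = 0 := by linarith
        have := (mul_eq_zero.1 this).resolve_left hne
        linarith
      have h2 : 0 < z.im * z.im := mul_self_pos.2 hne
      nlinarith [sq_nonneg (a - c), mul_self_nonneg b]
    have hz2 : ((x 0 - z) * (x 4 - z) - (x 1 : ℂ) ^ 2) *
        ((x 2 - z) * (x 4 - z) - (x 3 : ℂ) ^ 2) = 0 := by
      have : Polynomial.aeval z (alongLine vpoly x (-![1, 0, 1, 0, 1])) = 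
          ((x 0 - z) * (x 4 - z) - (x 1 : ℂ) ^ 2) *
        ((x 2 - z) * (x 4 - z) - (x 3 : ℂ) ^ 2) := by
        simp [alongLine, vpoly]
        ring
      rw [← this]
      exact hz
    rcases mul_eq_zero.1 hz2 with h | h
    · exact key _ _ _ h
    · exact key _ _ _ h

lemma vcone_eq_hypCone : vcone = hypCone vpoly ![1, 0, 1, 0, 1] := by
  have key : ∀ a b c : ℝ, (0 ≤ a ∧ 0 ≤ c ∧ b ^ 2 ≤ a * c) ↔
      ∀ t : ℝ, (t - a) * (t - c) - b ^ 2 = 0 → 0 ≤ t := by
    intro a b c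
    constructor
    · rintro ⟨ha, hc, h⟩ t ht
      by_contra hcon
      push Not at hcon
      nlinarith [mul_pos_of_neg_of_neg hcon hcon, mul_nonneg ha (neg_nonneg.2 hcon.le),
        mul_nonneg hc (neg_nonneg.2 hcon.le)]
    · intro H
      set s := √((a - c) ^ 2 + 4 * b ^ 2) with hs
      have hs2 : s ^ 2 = (a - c) ^ 2 + 4 * b ^ 2 := Real.sq_sqrt (by positivity)
      have hs0 : 0 ≤ s := Real.sqrt_nonneg _
      have h1 := H ((a + c - s) / 2) (by nlinarith)
      have h2 : s ≤ a + c := by linarith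
      have h3 : b ^ 2 ≤ a * c := by nlinarith
      have h4 : |a - c| ≤ s := by
        rw [← Real.sqrt_sq_eq_abs]
        exact Real.sqrt_le_sqrt (by nlinarith [sq_nonneg b])
      have h5 := abs_le.1 h4
      exact ⟨by linarith, by linarith, h3⟩
  ext x
  rw [mem_hypCone]
  have e1 : ∀ t : ℝ, MvPolynomial.eval (t • (![1, 0, 1, 0, 1] : Fin 5 → ℝ) - x) vpoly =
      ((t - x 0) * (t - x 4) - x 1 ^ 2) * ((t - x 2) * (t - x 4) - x 3 ^ 2) := by
    intro t
    simp [vpoly]
    rfl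
  simp only [e1]
  constructor
  · rintro ⟨h0, h2, h4, h01, h23⟩ t ht
    rcases mul_eq_zero.1 ht with h | h
    · exact (key _ _ _).1 ⟨h0, h4, h01⟩ t h
    · exact (key _ _ _).1 ⟨h2, h4, h23⟩ t h
  · intro H
    obtain ⟨h0, h4, h01⟩ := (key (x 0) (x 1) (x 4)).2
      fun t ht => H t (by rw [ht, zero_mul])
    obtain ⟨h2, _, h23⟩ := (key (x 2) (x 3) (x 4)).2
      fun t ht => H t (by rw [ht, mul_zero])
    exact ⟨h0, h2, h4, h01, h23⟩

/-- **Main theorem.** There is a homogeneous cone `K ⊆ ℝ⁵` (closed convex, pointed,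
full-dimensional, with linear automorphism group transitive on the interior) such that for
every `d`, every `p` homogeneous of degree `d` and hyperbolic along `e` with `K = Λ₊(p, e)`, there
is an extreme ray `F` of `K` which is generated by some vector and all of whose generators have
rank at least `2` with respect to `(p, e)`. -/
theorem result :
    ∃ K : Set (Fin 5 → ℝ), IsHomogeneousCone K ∧
      ∀ (d : ℕ) (p : MvPolynomial (Fin 5) ℝ) (e : Fin 5 → ℝ),
        IsHyperbolic d p e → K = hypCone p e →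
          ∃ F : Set (Fin 5 → ℝ), IsExtremeRay K F ∧ (∃ x, F = ray x) ∧
            ∀ x, F = ray x → 2 ≤ hypRank p e x := by
  refine ⟨vcone, isHomogeneousCone_vcone, fun d p e h hK => ?_⟩
  obtain ⟨b, δ, t₁, t₂, ht1, ht2, ht12, e1, e2⟩ := exists_two_roots h hK
  refine ⟨ray (gen b δ), isExtremeRay_gen b δ, ⟨_, rfl⟩, fun x hx => ?_⟩
  have hxm : x ∈ ray (gen b δ) := by
    rw [hx]; exact ⟨1, zero_le_one, by rw [one_smul]⟩
  obtain ⟨c, hc, rfl⟩ := hxm
  have hc0 : c ≠ 0 := by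
    rintro rfl
    have hg : gen b δ ∈ ray ((0 : ℝ) • gen b δ) := by
      rw [← hx]; exact ⟨1, zero_le_one, by rw [one_smul]⟩
    obtain ⟨c', _, hc'⟩ := hg
    rw [zero_smul, smul_zero] at hc'
    exact gen_ne_zero b δ hc'
  refine two_le_hypRank h (t₁ := c * t₁) (t₂ := c * t₂) (mul_ne_zero hc0 ht1)
    (mul_ne_zero hc0 ht2) (fun hcon => ht12 (mul_left_cancel₀ hc0 hcon)) ?_ ?_
  · rw [mul_smul, ← smul_sub, eval_smul_hom h.homogeneous, e1, mul_zero]
  · rw [mul_smul, ← smul_sub, eval_smul_hom h.homogeneous, e2, mul_zero]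

end Pool.Agent.Results.MP_3ab8ef_ag.NotROG
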